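import Pool.Agent.Helper14.BL.Ellipsoid
import Pool.Agent.Helper14.BL.Dim

/-!
# A convex body whose `d`-dimensional sections through an interior point are ellipsoids
-/

set_option autoImplicit false

open Set Metric Module
open scoped RealInnerProductSpace

namespace Pool.Agent.Helper81.TP

open Pool.Agent.Helper14.BL

/-- three vectors lie in the range of an isometric embedding of `d`-space -/
lemma exists_iso' (n d : ℕ) (hd : 3 ≤ d) (hn : d ≤ n) (u v w : E n) :
    ∃ ι : E d →ₗᵢ[ℝ] E n, u ∈ range ι ∧ v ∈ range ι ∧ w ∈ range ι := by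
  classical
  have key : ∀ k ≤ n, ∀ W : Submodule ℝ (E n), finrank ℝ W ≤ k →
      ∃ W' : Submodule ℝ (E n), W ≤ W' ∧ finrank ℝ W' = k := by
    intro k hk W hW
    obtain ⟨m, hm⟩ := Nat.exists_eq_add_of_le hW
    induction m generalizing k with
    | zero => exact ⟨W, le_rfl, by omega⟩
    | succ m ih =>
      obtain ⟨W', h1, h2⟩ := ih (finrank ℝ W + m) (by omega) (by omega) rfl
      have hlt : W' < ⊤ := by
        rw [lt_top_iff_ne_top]
        rintro rfl
        rw [finrank_top, finrank_euclideanSpace_fin] at h2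
        omega
      obtain ⟨x, -, hx⟩ := SetLike.exists_of_lt hlt
      refine ⟨W' ⊔ Submodule.span ℝ {x}, h1.trans le_sup_left, ?_⟩
      have h3 := Submodule.finrank_sup_add_finrank_inf_eq W' (Submodule.span ℝ {x})
      have h4 : W' ⊓ Submodule.span ℝ {x} = ⊥ := by
        rw [← disjoint_iff]
        have hx0 : x ≠ 0 := fun h => hx (h ▸ W'.zero_mem)
        rw [Submodule.disjoint_span_singleton' hx0]
        exact hx
      have hx0 : x ≠ 0 := fun h => hx (h ▸ W'.zero_mem)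
      rw [h4, finrank_bot, finrank_span_singleton hx0] at h3
      omega
  obtain ⟨W, h1, h2⟩ := key d hn (Submodule.span ℝ ({u, v, w} : Finset (E n)))
    ((finrank_span_finset_le_card _).trans (Finset.card_le_three.trans hd))
  let b := (stdOrthonormalBasis ℝ W).reindex (finCongr h2)
  let ι : E d →ₗᵢ[ℝ] E n := W.subtypeₗᵢ.comp b.repr.symm.toLinearIsometry
  have hr : ∀ x ∈ W, x ∈ range ι := by
    intro x hx
    refine ⟨b.repr ⟨x, hx⟩, ?_⟩
    simp [ι]
  refine ⟨ι, hr _ (h1 (Submodule.subset_span (by simp))), hr _ (h1 (Submodule.subset_span (by simp))),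
    hr _ (h1 (Submodule.subset_span (by simp)))⟩

/-- the gauge as a supremum of a ray: `t` such that the ray meets the body exactly in `[0, 1/t]` -/
lemma exists_gauge {n : ℕ} {B : Set (E n)} (hc : Convex ℝ B) (hk : IsCompact B)
    (h0 : (0 : E n) ∈ interior B) {u : E n} (hu : u ≠ 0) :
    ∃ g : ℝ, 0 < g ∧ ∀ t : ℝ, 0 ≤ t → (t • u ∈ B ↔ t * g ≤ 1) := by
  have hB0 : B ∈ nhds (0 : E n) := mem_interior_iff_mem_nhds.1 h0
  have habs : Absorbent ℝ B := absorbent_nhds_zero hB0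
  have hbd : Bornology.IsVonNBounded ℝ B := NormedSpace.isVonNBounded_iff _ |>.2 hk.isBounded
  have hg : 0 < gauge B u := (gauge_pos habs hbd).2 hu
  refine ⟨gauge B u, hg, fun t ht => ?_⟩
  have h1 : t • u ∈ B ↔ gauge B (t • u) ≤ 1 := by
    rw [gauge_le_one_iff_mem_closure hc hB0, hk.isClosed.closure_eq]
  rw [h1, gauge_smul_of_nonneg ht, smul_eq_mul]

/-- the equation of the gauge on a line -/
lemma gauge_eq {q l g : ℝ} (hg : 0 < g) (h : ∀ t : ℝ, 0 ≤ t → (q * t ^ 2 - l * t - 1 ≤ 0 ↔ t * g ≤ 1)) :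
    q = g ^ 2 + l * g := by
  have h1 : q * (1 / g) ^ 2 - l * (1 / g) - 1 ≤ 0 :=
    (h (1 / g) (by positivity)).2 (by rw [one_div, inv_mul_cancel₀ hg.ne'])
  have h2 : 0 ≤ q * (1 / g) ^ 2 - l * (1 / g) - 1 := by
    have hcont : Continuous fun t : ℝ => q * t ^ 2 - l * t - 1 := by fun_prop
    have hlim : Filter.Tendsto (fun k : ℕ => (1 / g + 1 / ((k : ℝ) + 1))) Filter.atTop
        (nhds (1 / g + 0)) := tendsto_const_nhds.add tendsto_one_div_add_atTop_nhds_zero_nat
    rw [add_zero] at hlim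
    have h3 := (hcont.tendsto (1 / g)).comp hlim
    refine ge_of_tendsto' h3 fun k => ?_
    by_contra hcon
    push Not at hcon
    have hk : (0 : ℝ) < 1 / ((k : ℝ) + 1) := by positivity
    have h4 := (h (1 / g + 1 / ((k : ℝ) + 1)) (by positivity)).1 hcon.le
    rw [add_mul, one_div, inv_mul_cancel₀ hg.ne'] at h4
    nlinarith [mul_pos hk hg]
  have h3 : q * (1 / g) ^ 2 - l * (1 / g) - 1 = 0 := le_antisymm h1 h2
  field_simp at h3
  linarith

/-- the gauge of an ellipsoid -/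
lemma gauge_ell {d : ℕ} {T : E d ≃ₗ[ℝ] E d} {a : E d}
    (h0 : (0 : E d) ∈ interior ((fun x => a + T x) '' closedBall (0 : E d) 1)) :
    ∃ (S : E d ≃ₗ[ℝ] E d) (c : E d), ∀ (u : E d) (g g' : ℝ), 0 < g → 0 < g' →
      (∀ t : ℝ, 0 ≤ t → (t • u ∈ (fun x => a + T x) '' closedBall (0 : E d) 1 ↔ t * g ≤ 1)) →
      (∀ t : ℝ, 0 ≤ t → (t • (-u) ∈ (fun x => a + T x) '' closedBall (0 : E d) 1 ↔ t * g' ≤ 1)) →
      g * g' = ‖S u‖ ^ 2 ∧ g - g' = ⟪u, c⟫ := by
  have hmem : ∀ y : E d, y ∈ (fun x => a + T x) '' closedBall (0 : E d) 1 ↔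
      ‖T.symm y - T.symm a‖ ≤ 1 := by
    intro y
    constructor
    · rintro ⟨x, hx, rfl⟩
      simp only [map_add, LinearEquiv.symm_apply_apply, add_sub_cancel_left]
      simpa using hx
    · intro hy
      refine ⟨T.symm y - T.symm a, by simpa using hy, ?_⟩
      simp
  set δ := 1 - ‖T.symm a‖ ^ 2 with hδ
  have hδ0 : 0 < δ := by
    by_cases ha : a = 0
    · rw [hδ, ha]
      simp
    · -- a small negative multiple of `a` is in the body
      have h1 : ∀ᶠ t : ℝ in nhds 0, (-t) • a ∈ (fun x => a + T x) '' closedBall (0 : E d) 1 := by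
        have hc : Continuous fun t : ℝ => (-t) • a := by fun_prop
        have h2 : (fun x => a + T x) '' closedBall (0 : E d) 1 ∈ nhds ((-(0 : ℝ)) • a) := by
          rw [neg_zero, zero_smul]
          exact mem_interior_iff_mem_nhds.1 h0
        exact hc.tendsto 0 h2
      obtain ⟨ε, hε, hball⟩ := Metric.eventually_nhds_iff.1 h1
      have h3 := hball (y := ε / 2) (by
        rw [dist_zero_right, Real.norm_eq_abs, abs_of_pos (by positivity)]
        linarith)
      rw [hmem] at h3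
      have h4 : T.symm ((-(ε / 2)) • a) - T.symm a = (-(1 + ε / 2)) • T.symm a := by
        rw [map_smul]
        module
      rw [h4, norm_smul, Real.norm_eq_abs, abs_neg, abs_of_pos (by positivity)] at h3
      have h5 : 0 < ‖T.symm a‖ := by
        rw [norm_pos_iff]
        intro h6
        rw [LinearEquiv.map_eq_zero_iff] at h6
        exact ha h6
      have h6 : ‖T.symm a‖ < 1 := by nlinarith
      rw [hδ]
      nlinarith
  have hr0 : 0 < (Real.sqrt δ)⁻¹ := inv_pos.2 (Real.sqrt_pos.2 hδ0)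
  let S : E d ≃ₗ[ℝ] E d := T.symm.trans (LinearEquiv.smulOfNeZero ℝ (E d) (Real.sqrt δ)⁻¹ hr0.ne')
  have hS : ∀ u, S u = (Real.sqrt δ)⁻¹ • T.symm u := fun u => rfl
  let c : E d := (-(2 / δ)) • LinearMap.adjoint (T.symm : E d →ₗ[ℝ] E d) (T.symm a)
  have hc : ∀ u, ⟪u, c⟫ = -(2 / δ) * ⟪T.symm u, T.symm a⟫ := by
    intro u
    rw [inner_smul_right, LinearMap.adjoint_inner_right]
    rfl
  refine ⟨S, c, fun u g g' hg hg' h h' => ?_⟩
  have hq : ∀ v : E d, ∀ t : ℝ, t • v ∈ (fun x => a + T x) '' closedBall (0 : E d) 1 ↔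
      (‖T.symm v‖ ^ 2 / δ) * t ^ 2 - (2 * ⟪T.symm v, T.symm a⟫ / δ) * t - 1 ≤ 0 := by
    intro v t
    rw [hmem, map_smul]
    have e1 : ‖t • T.symm v - T.symm a‖ ≤ 1 ↔ ‖t • T.symm v - T.symm a‖ ^ 2 ≤ 1 := by
      rw [sq_le_one_iff₀ (norm_nonneg _)]
    rw [e1, norm_sub_sq_real, norm_smul, Real.norm_eq_abs, mul_pow, sq_abs, real_inner_smul_left]
    have e2 : (‖T.symm v‖ ^ 2 / δ) * t ^ 2 - (2 * ⟪T.symm v, T.symm a⟫ / δ) * t - 1 =
        (t ^ 2 * ‖T.symm v‖ ^ 2 - 2 * (t * ⟪T.symm v, T.symm a⟫) - δ) / δ := by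
      field_simp
    rw [e2, div_le_iff₀ hδ0, zero_mul, hδ]
    constructor <;> intro h <;> linarith
  have e1 := gauge_eq (q := ‖T.symm u‖ ^ 2 / δ) (l := 2 * ⟪T.symm u, T.symm a⟫ / δ) hg
    (fun t ht => by rw [← hq, h t ht])
  have e2 := gauge_eq (q := ‖T.symm (-u)‖ ^ 2 / δ) (l := 2 * ⟪T.symm (-u), T.symm a⟫ / δ) hg'
    (fun t ht => by rw [← hq, h' t ht])
  rw [map_neg, norm_neg, inner_neg_left] at e2
  have e3 : (g + g') * (g - g' + 2 * ⟪T.symm u, T.symm a⟫ / δ) = 0 := by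
    have : 2 * -⟪T.symm u, T.symm a⟫ / δ = -(2 * ⟪T.symm u, T.symm a⟫ / δ) := by ring
    rw [this] at e2
    linear_combination e2 - e1
  have e4 : g - g' + 2 * ⟪T.symm u, T.symm a⟫ / δ = 0 := by
    rcases mul_eq_zero.1 e3 with h1 | h1
    · linarith
    · exact h1
  constructor
  · rw [hS, norm_smul, mul_pow, norm_inv, Real.norm_eq_abs, abs_of_nonneg (Real.sqrt_nonneg _),
      inv_pow, Real.sq_sqrt hδ0.le]
    have : g' = g + 2 * ⟪T.symm u, T.symm a⟫ / δ := by linarith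
    rw [this]
    have e5 : δ⁻¹ * ‖T.symm u‖ ^ 2 = ‖T.symm u‖ ^ 2 / δ := by rw [div_eq_inv_mul]
    rw [e5, e1]
    ring
  · rw [hc]
    have : -(2 / δ) * ⟪T.symm u, T.symm a⟫ = -(2 * ⟪T.symm u, T.symm a⟫ / δ) := by ring
    rw [this]
    linarith

/-- If all sections by `d`-dimensional subspaces are ellipsoids, then the body is an ellipsoid. -/
theorem isEll_of_sections {n d : ℕ} (hd : 3 ≤ d) (hn : d ≤ n) {B : Set (E n)} (hc : Convex ℝ B)
    (hk : IsCompact B) (h0 : (0 : E n) ∈ interior B)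
    (hsec : ∀ ι : E d →ₗᵢ[ℝ] E n, IsEll d (ι ⁻¹' B)) : IsEll n B := by
  classical
  have hgau : ∀ u : E n, ∃ g : ℝ, (u = 0 → g = 0) ∧
      (u ≠ 0 → 0 < g ∧ ∀ t : ℝ, 0 ≤ t → (t • u ∈ B ↔ t * g ≤ 1)) := by
    intro u
    by_cases hu : u = 0
    · exact ⟨0, fun _ => rfl, fun h => absurd hu h⟩
    · obtain ⟨g, h1, h2⟩ := exists_gauge hc hk h0 hu
      exact ⟨g, fun h => absurd h hu, fun _ => ⟨h1, h2⟩⟩
  choose g hg0 hg using hgau
  let h : E n → ℝ := fun u => (g u - g (-u)) + Real.sqrt (g u * g (-u))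
  -- local form in dimension `d`
  have hloc : ∀ ι : E d →ₗᵢ[ℝ] E n, ∃ (S : E d ≃ₗ[ℝ] E d) (c : E d),
      ∀ φ, g (ι φ) * g (-ι φ) = ‖S φ‖ ^ 2 ∧ g (ι φ) - g (-ι φ) = ⟪φ, c⟫ := by
    intro ι
    obtain ⟨T, a, hT⟩ := hsec ι
    have h0' : (0 : E d) ∈ interior ((fun x => a + T x) '' closedBall (0 : E d) 1) := by
      rw [← hT]
      have h1 : ι ⁻¹' (interior B) ⊆ interior (ι ⁻¹' B) :=
        preimage_interior_subset_interior_preimage ι.continuous
      apply h1
      rw [mem_preimage, map_zero]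
      exact h0
    obtain ⟨S, c, hS⟩ := gauge_ell h0'
    refine ⟨S, c, fun φ => ?_⟩
    by_cases hφ : φ = 0
    · subst hφ
      rw [map_zero, neg_zero, hg0 0 rfl]
      simp
    · have hne : ι φ ≠ 0 := by
        intro h1
        exact hφ (ι.injective (by rw [h1, map_zero]))
      have hne' : -ι φ ≠ 0 := neg_ne_zero.2 hne
      obtain ⟨p1, p2⟩ := hg _ hne
      obtain ⟨p3, p4⟩ := hg _ hne'
      refine hS φ _ _ p1 p3 (fun t ht => ?_) (fun t ht => ?_)
      · rw [← hT, mem_preimage, map_smul]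
        exact p2 t ht
      · rw [← hT, mem_preimage, map_smul, map_neg]
        exact p4 t ht
  have H : LocEll n h := by
    intro u v w
    obtain ⟨ι, ⟨u', rfl⟩, ⟨v', rfl⟩, ⟨w', rfl⟩⟩ := exists_iso' n d hd hn u v w
    obtain ⟨j, ⟨u'', rfl⟩, ⟨v'', rfl⟩, ⟨w'', rfl⟩⟩ := exists_iso' d 3 le_rfl hd u' v' w'
    obtain ⟨S, c, hS⟩ := hloc ι
    let B3 : LinearMap.BilinForm ℝ (E 3) :=
      LinearMap.mk₂ ℝ (fun φ ψ => ⟪S (j φ), S (j ψ)⟫)
        (fun x y z => by simp only [map_add, inner_add_left])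
        (fun r x y => by simp only [map_smul, real_inner_smul_left]; rfl)
        (fun x y z => by simp only [map_add, inner_add_right])
        (fun r x y => by simp only [map_smul, real_inner_smul_right]; rfl)
    have hB3 : ∀ φ ψ, B3 φ ψ = ⟪S (j φ), S (j ψ)⟫ := fun φ ψ => rfl
    obtain ⟨S3, hS3⟩ := exists_sqrt_form B3 (fun φ ψ => by rw [hB3, hB3, real_inner_comm])
      (fun φ hφ => by
        rw [hB3, real_inner_self_eq_norm_sq]
        have : S (j φ) ≠ 0 := by
          intro h1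
          rw [LinearEquiv.map_eq_zero_iff] at h1
          exact hφ (j.injective (by rw [h1, map_zero]))
        have := norm_pos_iff.2 this
        positivity)
    refine ⟨ι.comp j, S3, LinearMap.adjoint j.toLinearMap c, ⟨u'', rfl⟩, ⟨v'', rfl⟩, ⟨w'', rfl⟩,
      fun φ => ?_⟩
    obtain ⟨e1, e2⟩ := hS (j φ)
    have e3 : ‖S3 φ‖ = ‖S (j φ)‖ := by
      have := hS3 φ
      rw [hB3, real_inner_self_eq_norm_sq] at this
      exact (sq_eq_sq₀ (norm_nonneg _) (norm_nonneg _)).1 this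
    change (g (ι (j φ)) - g (-ι (j φ))) + Real.sqrt (g (ι (j φ)) * g (-ι (j φ))) = _
    rw [e1, e2, Real.sqrt_sq (norm_nonneg _), e3, LinearMap.adjoint_inner_right]
    rfl
  obtain ⟨S, hS⟩ := exists_sqrt H
  have hgnn : ∀ u, 0 ≤ g u := by
    intro u
    by_cases hu : u = 0
    · rw [hg0 u hu]
    · exact (hg u hu).1.le
  have hev : ∀ u, ev h u = Real.sqrt (g u * g (-u)) := by
    intro u
    simp only [ev, h, neg_neg]
    rw [mul_comm (g (-u)) (g u)]
    ring
  have hod : ∀ u, od h u = g u - g (-u) := by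
    intro u
    simp only [od, h, neg_neg]
    rw [mul_comm (g (-u)) (g u)]
    ring
  have hSq : ∀ u, ‖S u‖ ^ 2 = g u * g (-u) := by
    intro u
    rw [hS, hev, Real.sq_sqrt (mul_nonneg (hgnn u) (hgnn (-u)))]
  -- the linear part
  let f : E n →ₗ[ℝ] ℝ := (odL H).comp S.symm.toLinearMap
  let b : E n := (InnerProductSpace.toDual ℝ (E n)).symm f.toContinuousLinearMap
  have hb : ∀ u, ⟪S u, b⟫ = g u - g (-u) := by
    intro u
    rw [real_inner_comm, InnerProductSpace.toDual_symm_apply]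
    change odL H (S.symm (S u)) = _
    rw [LinearEquiv.symm_apply_apply]
    exact hod u
  have hmem : ∀ x, x ∈ B ↔ ‖S x + (1 / 2 : ℝ) • b‖ ^ 2 ≤ 1 + ‖b‖ ^ 2 / 4 := by
    intro x
    rw [norm_add_sq_real, norm_smul, inner_smul_right, hb, hSq, Real.norm_eq_abs, mul_pow, sq_abs]
    by_cases hx : x = 0
    · subst hx
      rw [neg_zero, hg0 0 rfl]
      constructor
      · intro _
        ring_nf
        nlinarith [sq_nonneg ‖b‖]
      · intro _
        exact interior_subset h0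
    · have h1 := (hg x hx).2 1 zero_le_one
      rw [one_smul, one_mul] at h1
      rw [h1]
      have h2 := hgnn (-x)
      constructor
      · intro h3
        nlinarith [mul_nonneg (sub_nonneg.2 h3) (by linarith : (0 : ℝ) ≤ g (-x) + 1)]
      · intro h3
        by_contra hcon
        push Not at hcon
        nlinarith [mul_pos (sub_pos.2 hcon) (by linarith : (0 : ℝ) < g (-x) + 1)]
  set r := Real.sqrt (1 + ‖b‖ ^ 2 / 4) with hr
  have hr0 : 0 < r := Real.sqrt_pos.2 (by positivity)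
  have hr2 : r ^ 2 = 1 + ‖b‖ ^ 2 / 4 := Real.sq_sqrt (by positivity)
  let T : E n ≃ₗ[ℝ] E n := S.symm.trans (LinearEquiv.smulOfNeZero ℝ (E n) r hr0.ne')
  have hT : ∀ y, T y = r • S.symm y := fun y => rfl
  refine ⟨T, -((1 / 2 : ℝ) • S.symm b), ?_⟩
  ext x
  rw [hmem, ← hr2, sq_le_sq₀ (norm_nonneg _) hr0.le]
  simp only [mem_image, mem_closedBall_zero_iff]
  constructor
  · intro hx
    refine ⟨r⁻¹ • (S x + (1 / 2 : ℝ) • b), ?_, ?_⟩
    · rw [norm_smul, norm_inv, Real.norm_eq_abs, abs_of_pos hr0, inv_mul_le_iff₀ hr0, mul_one]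
      exact hx
    · rw [hT, map_smul, smul_smul, mul_inv_cancel₀ hr0.ne', one_smul, map_add,
        LinearEquiv.symm_apply_apply, map_smul]
      abel
  · rintro ⟨y, hy, rfl⟩
    rw [map_add, map_neg, map_smul, LinearEquiv.apply_symm_apply, hT, map_smul,
      LinearEquiv.apply_symm_apply]
    have e1 : -((1 / 2 : ℝ) • b) + r • y + (1 / 2 : ℝ) • b = r • y := by abel
    rw [e1, norm_smul, Real.norm_eq_abs, abs_of_pos hr0]
    calc r * ‖y‖ ≤ r * 1 := mul_le_mul_of_nonneg_left hy hr0.le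
      _ = r := mul_one r

end Pool.Agent.Helper81.TP
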