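import Pool.Agent.Helper18.BL.Main
import Pool.Agent.Helper81.TP.Sec

/-!
# Sections by `k`-dimensional planes touching an inner body
-/

set_option autoImplicit false

open Set Metric Module
open scoped RealInnerProductSpace

namespace Pool.Agent.Helper81.TP

open Pool.Agent.Helper14.BL (E IsEll)

theorem tangent_planes {n k : ℕ} (hk : 2 ≤ k) (hkn : k < n) (K K1 : Set (E n))
    (hK : Convex ℝ K) (hKc : IsCompact K) (hKi : (interior K).Nonempty)
    (hK1 : Convex ℝ K1) (hK1c : IsCompact K1) (hsub : K ⊆ interior K1)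
    (hsym : ∀ L : AffineSubspace ℝ (E n), finrank ℝ L.direction = k → (∃ x ∈ K, x ∈ L) →
      (∃ (f : E n →L[ℝ] ℝ) (c : ℝ), f ≠ 0 ∧ (∀ x ∈ K, f x ≤ c) ∧ ∀ x ∈ L, f x = c) →
      ∃ p : E n, ∀ x ∈ K1, x ∈ L → (2 : ℝ) • p - x ∈ K1 ∧ (2 : ℝ) • p - x ∈ L) :
    IsEll n K1 := by
  classical
  obtain ⟨x0, hx0⟩ := hKi
  let e : E n ≃ₜ E n := Homeomorph.addLeft x0
  have he : ∀ y, e y = x0 + y := fun y => rfl
  let B : Set (E n) := e ⁻¹' K1
  let C : Set (E n) := e ⁻¹' K
  have hBc : Convex ℝ B := hK1.translate_preimage_right x0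
  have hCc : Convex ℝ C := hK.translate_preimage_right x0
  have hBk : IsCompact B := e.isCompact_preimage.2 hK1c
  have hCk : IsCompact C := e.isCompact_preimage.2 hKc
  have hBi : interior B = e ⁻¹' (interior K1) := (e.preimage_interior K1).symm
  have hCi : interior C = e ⁻¹' (interior K) := (e.preimage_interior K).symm
  have h0C : (0 : E n) ∈ interior C := by
    rw [hCi, mem_preimage, he, add_zero]
    exact hx0
  have hCB : C ⊆ interior B := by
    intro y hy
    rw [hBi]
    exact hsub hy
  have h0B : (0 : E n) ∈ interior B := hCB (interior_subset h0C)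
  -- the sections through `x0`
  have hB : IsEll n B := by
    refine isEll_of_sections (d := k + 1) (by omega) (by omega) hBc hBk h0B fun ι => ?_
    have hpre : ∀ S : Set (E n), ι ⁻¹' (interior S) ⊆ interior (ι ⁻¹' S) := fun S =>
      preimage_interior_subset_interior_preimage ι.continuous
    have hmain := Pool.Agent.Helper18.BL.mainN (k + 1) (by omega) (ι ⁻¹' C) (ι ⁻¹' B)
      (hCc.linear_preimage ι.toLinearMap) (ι.isometry.isClosedEmbedding.isCompact_preimage hCk)
      ⟨0, hpre C (by rw [mem_preimage, map_zero]; exact h0C)⟩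
      (hBc.linear_preimage ι.toLinearMap) (ι.isometry.isClosedEmbedding.isCompact_preimage hBk)
      ⟨0, hpre B (by rw [mem_preimage, map_zero]; exact h0B)⟩
      (fun y hy => hpre B (hCB hy))
    refine hmain fun f c hf hle hex => ?_
    obtain ⟨y0, hy0, hfy0⟩ := hex
    obtain ⟨v, hv⟩ : ∃ v, 0 < f v := by
      by_contra hcon
      push Not at hcon
      apply hf
      ext w
      have h1 := hcon w
      have h2 := hcon (-w)
      rw [map_neg] at h2
      simp only [ContinuousLinearMap.zero_apply]
      linarith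
    let L : AffineSubspace ℝ (E n) :=
      AffineSubspace.mk' (x0 + ι y0) ((LinearMap.ker f.toLinearMap).map ι.toLinearMap)
    have hL : ∀ x, x ∈ L ↔ ∃ y, f y = c ∧ x = x0 + ι y := by
      intro x
      rw [AffineSubspace.mem_mk', vsub_eq_sub]
      constructor
      · rintro ⟨w, hw, hwx⟩
        have hw' : f w = 0 := hw
        refine ⟨y0 + w, by rw [map_add, hfy0, hw', add_zero], ?_⟩
        have h1 : ι w = x - (x0 + ι y0) := hwx
        rw [map_add, h1]
        abel
      · rintro ⟨y, hy, rfl⟩
        refine ⟨y - y0, ?_, ?_⟩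
        · change f (y - y0) = 0
          rw [map_sub, hy, hfy0, sub_self]
        · change ι (y - y0) = _
          rw [map_sub]
          abel
    have hdim : finrank ℝ L.direction = k := by
      rw [AffineSubspace.direction_mk']
      have h1 : finrank ℝ ((LinearMap.ker f.toLinearMap).map ι.toLinearMap) =
          finrank ℝ (LinearMap.ker f.toLinearMap) :=
        (Submodule.equivMapOfInjective ι.toLinearMap ι.injective _).finrank_eq.symm
      rw [h1]
      have h2 := LinearMap.finrank_range_add_finrank_ker f.toLinearMap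
      have h3 : LinearMap.range f.toLinearMap = ⊤ := by
        rw [LinearMap.range_eq_top]
        intro r
        refine ⟨(r / f v) • v, ?_⟩
        change f ((r / f v) • v) = r
        rw [map_smul, smul_eq_mul, div_mul_cancel₀ _ hv.ne']
      rw [h3, finrank_top, finrank_self, finrank_euclideanSpace_fin] at h2
      omega
    have hp0L : x0 + ι y0 ∈ L := (hL _).2 ⟨y0, hfy0, rfl⟩
    have hp0K : x0 + ι y0 ∈ K := hy0
    -- a supporting hyperplane containing `L`
    have hdisj : Disjoint (interior K) (L : Set (E n)) := by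
      rw [Set.disjoint_left]
      rintro x hx hxL
      obtain ⟨y, hy, rfl⟩ := (hL x).1 hxL
      have h1 : y ∈ interior (ι ⁻¹' C) := by
        apply hpre C
        rw [mem_preimage, hCi]
        exact hx
      rw [mem_interior_iff_mem_nhds] at h1
      have h2 : ∀ᶠ t : ℝ in nhds 0, y + t • v ∈ ι ⁻¹' C := by
        have hc : Continuous fun t : ℝ => y + t • v := by fun_prop
        have h3 := hc.tendsto 0
        simp only [zero_smul, add_zero] at h3
        exact h3 h1
      obtain ⟨ε, hε, hball⟩ := Metric.eventually_nhds_iff.1 h2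
      have h3 := hle _ (hball (y := ε / 2) (by
        rw [dist_zero_right, Real.norm_eq_abs, abs_of_pos (by positivity)]
        linarith))
      rw [map_add, map_smul, smul_eq_mul, hy] at h3
      have : 0 < ε / 2 * f v := by positivity
      linarith
    obtain ⟨F, u, hF1, hF2⟩ := geometric_hahn_banach_open hK.interior isOpen_interior
      (AffineSubspace.convex L) hdisj
    have hF0 : F ≠ 0 := by
      rintro rfl
      have h1 := hF1 x0 hx0
      have h2 := hF2 _ hp0L
      simp only [ContinuousLinearMap.zero_apply] at h1 h2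
      linarith
    have hFK : ∀ x ∈ K, F x ≤ u := by
      intro x hx
      have h1 : x ∈ closure (interior K) := by
        rw [hK.closure_interior_eq_closure_of_nonempty_interior ⟨x0, hx0⟩]
        exact subset_closure hx
      have h2 : IsClosed {x : E n | F x ≤ u} := isClosed_le F.continuous continuous_const
      exact closure_minimal (fun a ha => (hF1 a ha).le) h2 h1
    have hFp : F (x0 + ι y0) = u := le_antisymm (hFK _ hp0K) (hF2 _ hp0L)
    have hFL : ∀ x ∈ L, F x = u := by
      intro x hx
      obtain ⟨y, hy, rfl⟩ := (hL x).1 hx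
      have h1 := hF2 _ hx
      have h2 := hF2 (x0 + ι ((2 : ℝ) • y0 - y)) ((hL _).2 ⟨_, by
        rw [map_sub, map_smul, hfy0, hy, smul_eq_mul]
        ring, rfl⟩)
      have h3 : x0 + ι ((2 : ℝ) • y0 - y) = (2 : ℝ) • (x0 + ι y0) - (x0 + ι y) := by
        rw [map_sub, map_smul]
        module
      rw [h3, map_sub, map_smul, hFp, smul_eq_mul] at h2
      linarith
    obtain ⟨p, hp⟩ := hsym L hdim ⟨_, hp0K, hp0L⟩ ⟨F, u, hF0, hFK, hFL⟩
    obtain ⟨-, hq⟩ := hp _ (interior_subset (hsub hp0K)) hp0L
    obtain ⟨y1, hy1, hpy⟩ := (hL _).1 hq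
    have h2p : (2 : ℝ) • p = (2 : ℝ) • x0 + ι (y0 + y1) := by
      rw [sub_eq_iff_eq_add] at hpy
      rw [hpy, map_add]
      module
    refine ⟨(1 / 2 : ℝ) • (y0 + y1), fun x hx hfx => ?_⟩
    have hxL : x0 + ι x ∈ L := (hL _).2 ⟨x, hfx, rfl⟩
    obtain ⟨h1, -⟩ := hp _ (show x0 + ι x ∈ K1 from hx) hxL
    have h3 : (2 : ℝ) • p - (x0 + ι x) = x0 + ι ((2 : ℝ) • ((1 / 2 : ℝ) • (y0 + y1)) - x) := by
      rw [h2p, map_sub, map_smul, map_smul]
      module
    rw [h3] at h1
    refine ⟨h1, ?_⟩
    rw [map_sub, map_smul, map_smul, map_add, hfy0, hy1, hfx, smul_eq_mul, smul_eq_mul]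
    ring
  obtain ⟨T, a, hT⟩ := hB
  refine ⟨T, x0 + a, ?_⟩
  have h1 : K1 = e '' B := (e.image_preimage K1).symm
  rw [h1, hT, image_image]
  congr 1
  funext x
  rw [he]
  abel

end Pool.Agent.Helper81.TP
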